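import Pool.Agent.Y34.HB.Stm3
import Pool.Agent.Y34.HB.Basic

/-!
Project HQ (helper34): commutators of rotations along a cone and recurrence (jobs COMM, REC).
-/

set_option autoImplicit false

universe u v

open Metric Set Filter Topology
open Pool.Agent.Y34.HB

namespace Pool.Agent.Y51.HB

lemma cone_ok {P : E 2 → E 2} {κ δ : ℝ} (hδ : 0 < δ) (hκ0 : 0 ≤ κ) (hκ : κ * (1 + δ) ≤ δ / 4)
    (hP : ∀ x, ‖P x - x‖ ≤ κ * ‖x‖) {c u : E 2} (hu : ‖u‖ = 1) {T : ℝ} (hT : 0 ≤ T)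
    (hc : ‖c‖ ≤ δ / 4 * T) {v : E 2} (hv : v ∈ Cone u (δ / 2)) :
    P (T • u + v) + c ∈ Cone u δ := by
  obtain ⟨t, ht, h1⟩ := hv
  refine ⟨T + t, by linarith, ?_⟩
  have e : P (T • u + v) + c - (T + t) • u =
      (P (T • u + v) - (T • u + v)) + c + (v - t • u) := by module
  have h2 : ‖v‖ ≤ t + δ / 2 * t := by
    have h3 : v = t • u + (v - t • u) := by module
    rw [h3]
    refine (norm_add_le _ _).trans ?_
    rw [norm_smul, hu, Real.norm_of_nonneg ht, mul_one]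
    linarith
  have h4 : ‖T • u + v‖ ≤ (T + t) * (1 + δ) := by
    refine (norm_add_le _ _).trans ?_
    rw [norm_smul, hu, Real.norm_of_nonneg hT, mul_one]
    nlinarith [mul_nonneg hT hδ.le, mul_nonneg ht hδ.le]
  have h5 := hP (T • u + v)
  have h6 : κ * ‖T • u + v‖ ≤ δ / 4 * (T + t) := by
    calc κ * ‖T • u + v‖ ≤ κ * ((T + t) * (1 + δ)) := mul_le_mul_of_nonneg_left h4 hκ0
      _ = κ * (1 + δ) * (T + t) := by ring
      _ ≤ δ / 4 * (T + t) := mul_le_mul_of_nonneg_right hκ (by linarith)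
  rw [e]
  refine (norm_add₃_le).trans ?_
  nlinarith [mul_nonneg hT hδ.le, mul_nonneg ht hδ.le]

lemma symm_near {A : E 2 ≃ₗᵢ[ℝ] E 2} {η : ℝ} (hA : ∀ x, ‖A x - x‖ ≤ η * ‖x‖) (x : E 2) :
    ‖A.symm x - x‖ ≤ η * ‖x‖ := by
  have h := hA (A.symm x)
  rw [A.apply_symm_apply, A.symm.norm_map, norm_sub_rev] at h
  exact h

lemma comp_near {P Q : E 2 → E 2} {κ η : ℝ} (hP : ∀ x, ‖P x - x‖ ≤ κ * ‖x‖)
    (hQ : ∀ x, ‖Q x - x‖ ≤ η * ‖x‖) (hQn : ∀ x, ‖Q x‖ = ‖x‖) (x : E 2) :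
    ‖P (Q x) - x‖ ≤ (κ + η) * ‖x‖ := by
  have e : P (Q x) - x = (P (Q x) - Q x) + (Q x - x) := by abel
  rw [e]
  refine (norm_add_le _ _).trans ?_
  have h1 := hP (Q x)
  rw [hQn] at h1
  have h2 := hQ x
  linarith

theorem t_COMM : S_COMM.{u, v} := by
  intro X _ G _ _ _ f hf u δ hu hδ
  obtain ⟨η, hη⟩ : ∃ η : ℝ, η = δ / (12 * (1 + δ)) := ⟨_, rfl⟩
  have hη0 : 0 < η := by rw [hη]; positivity
  have hη3 : 3 * η * (1 + δ) = δ / 4 := by rw [hη]; field_simp; norm_num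
  have hk1 : η * (1 + δ) ≤ δ / 4 := by nlinarith
  have hk2 : (η + η) * (1 + δ) ≤ δ / 4 := by nlinarith
  have hk3 : (η + (η + η)) * (1 + δ) ≤ δ / 4 := by nlinarith
  refine ⟨η, hη0, ?_⟩
  intro γ₁ γ₂ p₁ p₂ q₁ q₂ A₁ A₂ B hA₁ hA₂ hcom H1 H2
  obtain ⟨b₁, hb₁⟩ : ∃ b : E 2, b = q₁ - A₁ p₁ := ⟨_, rfl⟩
  obtain ⟨b₂, hb₂⟩ : ∃ b : E 2, b = q₂ - A₂ p₂ := ⟨_, rfl⟩
  rw [← hb₁, ← hb₂]
  have K1 : ∀ z, z - p₁ ∈ Cone u δ → dist (γ₁ • f z) (f (A₁ z + b₁)) ≤ B := by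
    intro z hz
    have h := H1 _ hz
    have e1 : p₁ + (z - p₁) = z := by abel
    have e2 : q₁ + A₁ (z - p₁) = A₁ z + b₁ := by rw [map_sub, hb₁]; abel
    rwa [e1, e2] at h
  have K2 : ∀ z, z - p₂ ∈ Cone u δ → dist (γ₂ • f z) (f (A₂ z + b₂)) ≤ B := by
    intro z hz
    have h := H2 _ hz
    have e1 : p₂ + (z - p₂) = z := by abel
    have e2 : q₂ + A₂ (z - p₂) = A₂ z + b₂ := by rw [map_sub, hb₂]; abel
    rwa [e1, e2] at h
  -- constants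
  obtain ⟨c1, hc1⟩ : ∃ c : E 2, c = -A₂.symm b₂ - p₂ := ⟨_, rfl⟩
  obtain ⟨d, hd⟩ : ∃ c : E 2, c = A₁.symm (-A₂.symm b₂ - b₁) := ⟨_, rfl⟩
  obtain ⟨c4, hc4⟩ : ∃ c : E 2, c = A₂ d + b₂ - p₁ := ⟨_, rfl⟩
  obtain ⟨T, hT⟩ : ∃ T : ℝ, T = 4 / δ * (‖c1‖ + ‖d - p₁‖ + ‖d - p₂‖ + ‖c4‖) := ⟨_, rfl⟩
  have hT0 : 0 ≤ T := by rw [hT]; positivity
  have hTT : δ / 4 * T = ‖c1‖ + ‖d - p₁‖ + ‖d - p₂‖ + ‖c4‖ := by
    rw [hT]
    field_simp
  refine ⟨T • u, fun v hv => ?_⟩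
  obtain ⟨z4, hz4⟩ : ∃ z : E 2, z = T • u + v := ⟨_, rfl⟩
  obtain ⟨y1, hy1⟩ : ∃ z : E 2, z = A₂.symm (z4 - b₂) := ⟨_, rfl⟩
  obtain ⟨y2, hy2⟩ : ∃ z : E 2, z = A₁.symm (y1 - b₁) := ⟨_, rfl⟩
  obtain ⟨y3, hy3⟩ : ∃ z : E 2, z = A₂ y2 + b₂ := ⟨_, rfl⟩
  obtain ⟨y4, hy4⟩ : ∃ z : E 2, z = A₁ y3 + b₁ := ⟨_, rfl⟩
  have hn1 := norm_nonneg c1
  have hn2 := norm_nonneg (d - p₁)
  have hn3 := norm_nonneg (d - p₂)
  have hn4 := norm_nonneg c4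
  have ey2 : y2 = A₁.symm (A₂.symm z4) + d := by
    have e : A₂.symm (z4 - b₂) - b₁ = A₂.symm z4 + (-A₂.symm b₂ - b₁) := by
      rw [map_sub]
      abel
    rw [hy2, hy1, e, map_add, ← hd]
  have g1 : y1 - p₂ ∈ Cone u δ := by
    have e : y1 - p₂ = A₂.symm (T • u + v) + c1 := by
      rw [hy1, hc1, ← hz4, map_sub]
      abel
    rw [e]
    exact cone_ok hδ hη0.le hk1 (symm_near hA₂) hu hT0 (by rw [hTT]; linarith) hv
  have hS : ∀ x, ‖A₁.symm (A₂.symm x) - x‖ ≤ (η + η) * ‖x‖ :=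
    comp_near (P := fun x => A₁.symm x) (symm_near hA₁) (symm_near hA₂) (A₂.symm.norm_map)
  have g2 : y2 - p₁ ∈ Cone u δ := by
    have e : y2 - p₁ = A₁.symm (A₂.symm (T • u + v)) + (d - p₁) := by
      rw [ey2, ← hz4]
      abel
    rw [e]
    exact cone_ok (P := fun x => A₁.symm (A₂.symm x)) hδ (by linarith) hk2 hS hu hT0
      (by rw [hTT]; linarith) hv
  have g3 : y2 - p₂ ∈ Cone u δ := by
    have e : y2 - p₂ = A₁.symm (A₂.symm (T • u + v)) + (d - p₂) := by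
      rw [ey2, ← hz4]
      abel
    rw [e]
    exact cone_ok (P := fun x => A₁.symm (A₂.symm x)) hδ (by linarith) hk2 hS hu hT0
      (by rw [hTT]; linarith) hv
  have g4 : y3 - p₁ ∈ Cone u δ := by
    have e : y3 - p₁ = A₂ (A₁.symm (A₂.symm (T • u + v))) + c4 := by
      rw [hy3, ey2, hc4, ← hz4, map_add]
      abel
    rw [e]
    refine cone_ok (P := fun x => A₂ (A₁.symm (A₂.symm x))) hδ (by linarith) hk3 ?_ hu hT0
      (by rw [hTT]; linarith) hv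
    exact comp_near (P := fun x => A₂ x) (Q := fun x => A₁.symm (A₂.symm x)) hA₂ hS
      (fun x => by rw [A₁.symm.norm_map, A₂.symm.norm_map])
  -- the four moves
  have m1 : dist (γ₂⁻¹ • f z4) (f y1) ≤ B := by
    have h := K2 y1 g1
    have e : A₂ y1 + b₂ = z4 := by
      rw [hy1, A₂.apply_symm_apply]
      abel
    rw [e, dist_comm] at h
    have h2 : dist (γ₂⁻¹ • f z4) (f y1) = dist (f z4) (γ₂ • f y1) := by
      rw [← dist_smul γ₂, smul_inv_smul]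
    rw [h2]
    exact h
  have m2 : dist (γ₁⁻¹ • f y1) (f y2) ≤ B := by
    have h := K1 y2 g2
    have e : A₁ y2 + b₁ = y1 := by
      rw [hy2, A₁.apply_symm_apply]
      abel
    rw [e, dist_comm] at h
    have h2 : dist (γ₁⁻¹ • f y1) (f y2) = dist (f y1) (γ₁ • f y2) := by
      rw [← dist_smul γ₁, smul_inv_smul]
    rw [h2]
    exact h
  have m3 : dist (γ₂ • f y2) (f y3) ≤ B := by
    rw [hy3]
    exact K2 y2 g3
  have m4 : dist (γ₁ • f y3) (f y4) ≤ B := by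
    rw [hy4]
    exact K1 y3 g4
  have e4 : T • u + v + ((A₁ b₂ + b₁) - (A₂ b₁ + b₂)) = y4 := by
    rw [← hz4, hy4, hy3, map_add, hcom]
    have e5 : z4 = A₂ (A₁ y2 + b₁) + b₂ := by
      rw [hy2, A₁.apply_symm_apply, sub_add_cancel, hy1, A₂.apply_symm_apply, sub_add_cancel]
    rw [e5, map_add]
    abel
  rw [e4, ← hz4, mul_smul, mul_smul, mul_smul]
  have t1 : dist (γ₁ • γ₂ • γ₁⁻¹ • γ₂⁻¹ • f z4) (γ₁ • γ₂ • γ₁⁻¹ • f y1) ≤ B := by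
    rw [dist_smul, dist_smul, dist_smul]
    exact m1
  have t2 : dist (γ₁ • γ₂ • γ₁⁻¹ • f y1) (γ₁ • γ₂ • f y2) ≤ B := by
    rw [dist_smul, dist_smul]
    exact m2
  have t3 : dist (γ₁ • γ₂ • f y2) (γ₁ • f y3) ≤ B := by
    rw [dist_smul]
    exact m3
  have s1 := dist_triangle (γ₁ • γ₂ • γ₁⁻¹ • γ₂⁻¹ • f z4) (γ₁ • γ₂ • γ₁⁻¹ • f y1) (f y4)
  have s2 := dist_triangle (γ₁ • γ₂ • γ₁⁻¹ • f y1) (γ₁ • γ₂ • f y2) (f y4)
  have s3 := dist_triangle (γ₁ • γ₂ • f y2) (γ₁ • f y3) (f y4)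
  linarith

theorem t_REC : S_REC.{u, v} := by
  intro X _ G _ _ hG k f hf u R
  have := hG.proper
  have := hG.isom
  obtain ⟨K, hK, hKc⟩ := hG.cc
  choose g hg using fun m : ℕ => hKc (f ((m : ℝ) • u))
  obtain ⟨F, -, -, hF⟩ := t_lim X k K hK (fun m z => g m • f ((m : ℝ) • u + z))
    (fun m => Isometry.of_dist_eq fun z w => by
      rw [dist_smul, hf.dist_eq, dist_add_left])
    (fun m => by
      simp only [add_zero]
      exact hg m)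
  have h1 := hF R (1 / 2) (by norm_num)
  obtain ⟨m, hm⟩ := h1.exists
  refine ⟨m, fun N => ?_⟩
  have h2 : ∀ᶠ n in (hyperfilter ℕ : Filter ℕ), N ≤ n :=
    Nat.hyperfilter_le_atTop (eventually_ge_atTop N)
  obtain ⟨n, hn, hNn⟩ := (h1.and h2).exists
  refine ⟨n, hNn, (g n)⁻¹ * g m, fun v hv => ?_⟩
  have h3 := hm v hv
  have h4 := hn v hv
  have h5 : dist (((g n)⁻¹ * g m) • f ((m : ℝ) • u + v)) (f ((n : ℝ) • u + v)) =
      dist (g m • f ((m : ℝ) • u + v)) (g n • f ((n : ℝ) • u + v)) := by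
    rw [← dist_smul (g n), smul_smul, mul_inv_cancel_left]
  rw [h5]
  have h6 := dist_triangle_right (g m • f ((m : ℝ) • u + v)) (g n • f ((n : ℝ) • u + v)) (F v)
  linarith

end Pool.Agent.Y51.HB
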