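import Pool.Agent.Y34.HB.Stm3

/-!
Project HQ (helper34): a region of convexity contains a cone (job K2).
-/

set_option autoImplicit false

open Metric Set Filter Topology
open Pool.Agent.Y34.HB

namespace Pool.Agent.Y51.HB

/-- supporting half-space -/
lemma half {k : ℕ} {D : E k → ℝ} (hD : ConvexOn ℝ univ D) {M : ℝ} {c z : E k} (hz : M ≤ D z)
    (hb : ∀ z', ‖z' - c‖ < ‖z - c‖ → D z' < M) {q : E k} (hq : inner ℝ (q - z) (c - z) < 0) :
    M ≤ D q := by
  by_contra hc
  push Not at hc
  obtain ⟨i, hi⟩ : ∃ i : ℝ, i = inner ℝ (q - z) (c - z) := ⟨_, rfl⟩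
  rw [← hi] at hq
  obtain ⟨s, hs⟩ : ∃ s : ℝ, s = -i / (‖z - q‖ ^ 2 + 1) := ⟨_, rfl⟩
  have hd : 0 < ‖z - q‖ ^ 2 + 1 := by positivity
  have hs0 : 0 < s := by rw [hs]; exact div_pos (by linarith) hd
  have hs1 : s * (‖z - q‖ ^ 2 + 1) = -i := by rw [hs]; field_simp
  have h1 : D (z + s • (z - q)) < M := by
    refine hb _ ?_
    have h2 : ‖z + s • (z - q) - c‖ ^ 2 < ‖z - c‖ ^ 2 := by
      have e : z + s • (z - q) - c = (z - c) + s • (z - q) := by module
      have e2 : inner ℝ (z - c) (z - q) = i := by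
        have : (z - c : E k) = -(c - z) := by module
        have h3 : (z - q : E k) = -(q - z) := by module
        rw [this, h3, inner_neg_neg, real_inner_comm, ← hi]
      rw [e, norm_add_sq_real, real_inner_smul_right, e2, norm_smul, mul_pow,
        Real.norm_of_nonneg hs0.le]
      nlinarith
    exact lt_of_pow_lt_pow_left₀ 2 (norm_nonneg _) h2
  have h4 := hD.2 (mem_univ (z + s • (z - q))) (mem_univ q)
    (show (0 : ℝ) ≤ 1 / (1 + s) by positivity) (show (0 : ℝ) ≤ s / (1 + s) by positivity)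
    (by field_simp)
  have e : (1 / (1 + s)) • (z + s • (z - q)) + (s / (1 + s)) • q = z := by
    have h5 : (1 + s) ≠ 0 := by positivity
    have h6 : (1 / (1 + s)) • (z + s • (z - q)) + (s / (1 + s)) • q =
        ((1 / (1 + s)) * (1 + s)) • z := by
      rw [div_eq_mul_one_div s (1 + s)]
      module
    rw [h6, one_div, inv_mul_cancel₀ h5, one_smul]
  rw [e, smul_eq_mul, smul_eq_mul] at h4
  have h7 : 1 / (1 + s) * D (z + s • (z - q)) < 1 / (1 + s) * M :=
    mul_lt_mul_of_pos_left h1 (by positivity)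
  have h8 : s / (1 + s) * D q < s / (1 + s) * M := mul_lt_mul_of_pos_left hc (by positivity)
  have h9 : 1 / (1 + s) * M + s / (1 + s) * M = M := by field_simp
  linarith

theorem t_K2 : S_K2 := by
  intro k D hDc hD u M R0 δ R hu hR0 hδ hR H H0 t1 ht1 v1 hv1
  by_contra hcon
  push Not at hcon
  obtain ⟨S, hS⟩ : ∃ S : Set (E k), S = {z | M ≤ D z} := ⟨_, rfl⟩
  have hScl : IsClosed S := by rw [hS]; exact isClosed_le continuous_const hDc
  have hSne : S.Nonempty := ⟨t1 • u + v1, by rw [hS]; exact hcon⟩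
  have hSmem : ∀ z, z ∈ S ↔ M ≤ D z := fun z => by rw [hS]; exact Iff.rfl
  have hSR : ∀ z ∈ S, R ≤ ‖z‖ := by
    intro z hz
    by_contra hc
    push Not at hc
    exact absurd (H0 z hc) (not_lt.2 ((hSmem z).1 hz))
  have claim : ∀ t : ℝ, 0 ≤ t → R0 ≤ infDist (t • u) S → R + δ * t ≤ infDist (t • u) S := by
    intro t ht hr
    obtain ⟨z, hz, hzd⟩ := hScl.exists_infDist_eq_dist hSne (t • u)
    obtain ⟨r, hrr⟩ : ∃ r, r = infDist (t • u) S := ⟨_, rfl⟩
    rw [← hrr] at hr hzd ⊢
    rw [dist_eq_norm] at hzd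
    have hr0 : 0 < r := lt_of_lt_of_le hR0 hr
    have hzM : M ≤ D z := (hSmem z).1 hz
    have hball : ∀ z', ‖z' - t • u‖ < ‖z - t • u‖ → D z' < M := by
      intro z' hz'
      by_contra hc
      push Not at hc
      have h1 : infDist (t • u) S ≤ dist (t • u) z' := infDist_le_dist_of_mem ((hSmem z').2 hc)
      rw [← hrr, dist_eq_norm, norm_sub_rev] at h1
      rw [norm_sub_rev z, ← hzd] at hz'
      linarith
    have h1 := H (t • u) z hzM (by rw [← hzd]; exact hr) hball
    rw [← hzd] at h1
    obtain ⟨w, hw⟩ : ∃ w : E k, w = t • u - z := ⟨_, rfl⟩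
    rw [← hw] at h1 hzd
    have hww : inner ℝ w w = r ^ 2 := by rw [real_inner_self_eq_norm_sq, ← hzd]
    have h2 : inner ℝ z w ≤ 0 := by
      by_contra hc
      push Not at hc
      have h3 := half hD hzM hball (q := 0) (by
        rw [← hw, zero_sub, inner_neg_left]
        linarith)
      exact absurd (H0 0 (by rw [norm_zero]; linarith)) (not_lt.2 h3)
    have h3 : ∀ η : ℝ, 0 < η → R * r ≤ -inner ℝ z w + η * r ^ 2 := by
      intro η hη
      obtain ⟨y, hy⟩ : ∃ y : ℝ, y = inner ℝ z w / r ^ 2 - η := ⟨_, rfl⟩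
      have hyr : y * r ^ 2 = inner ℝ z w - η * r ^ 2 := by
        rw [hy]
        field_simp
      have h4 := half hD hzM hball (q := y • w) (by
        rw [← hw, inner_sub_left, real_inner_smul_left, hww, hyr]
        have : 0 < η * r ^ 2 := by positivity
        linarith)
      have h5 := hSR _ ((hSmem _).2 h4)
      rw [norm_smul, ← hzd] at h5
      have hy0 : y ≤ 0 := by
        by_contra hc
        push Not at hc
        have : 0 < y * r ^ 2 := by positivity
        have h6 : 0 < η * r ^ 2 := by positivity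
        linarith
      rw [Real.norm_of_nonpos hy0] at h5
      have h7 : R * r ≤ -y * r * r := mul_le_mul_of_nonneg_right h5 hr0.le
      nlinarith
    have h4 : R * r ≤ -inner ℝ z w := by
      refine le_of_forall_pos_le_add fun ε hε => ?_
      have h5 := h3 (ε / r ^ 2) (by positivity)
      rwa [div_mul_cancel₀ _ (by positivity)] at h5
    have h5 : -inner ℝ z w = r ^ 2 - t * inner ℝ w u := by
      have : z = t • u - w := by rw [hw]; module
      rw [this, inner_sub_left, real_inner_smul_left, hww, real_inner_comm]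
      ring
    have h6 : t * (δ * r) ≤ t * inner ℝ w u := mul_le_mul_of_nonneg_left h1 ht
    have h7 : (R + δ * t) * r ≤ r * r := by nlinarith
    exact le_of_mul_le_mul_right h7 hr0
  -- the end
  have hd1 : infDist (t1 • u) S < R + δ * t1 := by
    refine lt_of_le_of_lt (infDist_le_dist_of_mem ((hSmem (t1 • u + v1)).2 hcon)) ?_
    rw [dist_eq_norm]
    have : t1 • u - (t1 • u + v1) = -v1 := by module
    rw [this, norm_neg]
    exact hv1
  have hd2 : infDist (t1 • u) S < R0 := by
    by_contra hc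
    push Not at hc
    exact absurd (claim t1 ht1 hc) (not_le.2 hd1)
  have hd0 : R ≤ infDist ((0 : ℝ) • u) S := by
    rw [zero_smul]
    refine (le_infDist hSne).2 fun z hz => ?_
    rw [dist_zero_left]
    exact hSR z hz
  have hcont : ContinuousOn (fun t : ℝ => infDist (t • u) S) (Icc 0 t1) :=
    ((continuous_infDist_pt S).comp (continuous_id.smul continuous_const)).continuousOn
  obtain ⟨t, ht, ht2⟩ := intermediate_value_Icc' ht1 hcont ⟨hd2.le, hR.le.trans hd0⟩
  simp only at ht2
  have h8 := claim t ht.1 ht2.ge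
  rw [ht2] at h8
  have : 0 ≤ δ * t := mul_nonneg hδ.le ht.1
  linarith

end Pool.Agent.Y51.HB
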