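import Pool.Agent.Y34.HB.Stm3

/-!
Project HQ (helper34): linear isometries of the plane (jobs ROT2, NID).
-/

set_option autoImplicit false

open Metric Set Filter Topology
open Pool.Agent.Y34.HB

namespace Pool.Agent.Y51.HB

lemma nsq (x : E 2) : ‖x‖ ^ 2 = x 0 ^ 2 + x 1 ^ 2 := by
  rw [EuclideanSpace.norm_sq_eq]
  simp [Fin.sum_univ_two]

lemma J_zero (x : E 2) : J x 0 = -x 1 := by simp [J]

lemma J_one (x : E 2) : J x 1 = x 0 := by simp [J]

lemma J_norm (x : E 2) : ‖J x‖ = ‖x‖ := by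
  have h : ‖J x‖ ^ 2 = ‖x‖ ^ 2 := by
    rw [nsq, nsq, J_zero, J_one]
    ring
  exact (sq_eq_sq₀ (norm_nonneg _) (norm_nonneg _)).1 h

lemma ext2 {x y : E 2} (h0 : x 0 = y 0) (h1 : x 1 = y 1) : x = y := by
  ext i
  fin_cases i
  · exact h0
  · exact h1

theorem t1 : S_ROT2 := by
  intro A hA
  obtain ⟨e0, he00, he01⟩ : ∃ e : E 2, e 0 = 1 ∧ e 1 = 0 := ⟨!₂[1, 0], by simp, by simp⟩
  obtain ⟨e1, he10, he11⟩ : ∃ e : E 2, e 0 = 0 ∧ e 1 = 1 := ⟨!₂[0, 1], by simp, by simp⟩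
  have hx : ∀ x : E 2, x = x 0 • e0 + x 1 • e1 := by
    intro x
    refine ext2 ?_ ?_
    · simp [he00, he10]
    · simp [he01, he11]
  have hAx : ∀ x : E 2, A x = x 0 • A e0 + x 1 • A e1 := by
    intro x
    conv_lhs => rw [hx x]
    rw [map_add, map_smul, map_smul]
  obtain ⟨c, hc⟩ : ∃ c, c = A e0 0 := ⟨_, rfl⟩
  obtain ⟨s, hs⟩ : ∃ s, s = A e0 1 := ⟨_, rfl⟩
  obtain ⟨p, hp⟩ : ∃ p, p = A e1 0 := ⟨_, rfl⟩
  obtain ⟨q, hq⟩ : ∃ q, q = A e1 1 := ⟨_, rfl⟩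
  have n0 : c ^ 2 + s ^ 2 = 1 := by
    have h := nsq (A e0)
    rw [A.norm_map, nsq, he00, he01, ← hc, ← hs] at h
    linarith
  have n1 : p ^ 2 + q ^ 2 = 1 := by
    have h := nsq (A e1)
    rw [A.norm_map, nsq, he10, he11, ← hp, ← hq] at h
    linarith
  have n2 : c * p + s * q = 0 := by
    have h := nsq (A (e0 + e1))
    rw [A.norm_map, nsq, map_add] at h
    simp only [PiLp.add_apply, he00, he01, he10, he11, ← hc, ← hs, ← hp, ← hq] at h
    nlinarith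
  have m0 : 1 / 2 ≤ c := by
    have h := hA e0
    have h2 : ‖A e0 - e0‖ ^ 2 ≤ ‖e0‖ ^ 2 := pow_le_pow_left₀ (norm_nonneg _) h 2
    rw [nsq, nsq] at h2
    simp only [PiLp.sub_apply, he00, he01, ← hc, ← hs] at h2
    nlinarith
  have m1 : 1 / 2 ≤ q := by
    have h := hA e1
    have h2 : ‖A e1 - e1‖ ^ 2 ≤ ‖e1‖ ^ 2 := pow_le_pow_left₀ (norm_nonneg _) h 2
    rw [nsq, nsq] at h2
    simp only [PiLp.sub_apply, he10, he11, ← hp, ← hq] at h2
    nlinarith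
  obtain ⟨d, hd⟩ : ∃ d, d = c * q - s * p := ⟨_, rfl⟩
  have hd2 : d ^ 2 = 1 := by
    have : d ^ 2 = (c ^ 2 + s ^ 2) * (p ^ 2 + q ^ 2) - (c * p + s * q) ^ 2 := by rw [hd]; ring
    rw [this, n0, n1, n2]
    norm_num
  have hq' : q = c * d := by
    have : c * d = q * (c ^ 2 + s ^ 2) - s * (c * p + s * q) := by rw [hd]; ring
    rw [this, n0, n2]
    ring
  have hp' : p = -(s * d) := by
    have : s * d = -(p * (c ^ 2 + s ^ 2)) + c * (c * p + s * q) := by rw [hd]; ring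
    rw [this, n0, n2]
    ring
  have hd1 : d = 1 := by
    have h0 : (d - 1) * (d + 1) = 0 := by linear_combination hd2
    rcases mul_eq_zero.1 h0 with h | h
    · linarith
    · have h' : d = -1 := by linarith
      rw [h'] at hq'
      linarith
  rw [hd1] at hq' hp'
  refine ⟨c, s, n0, fun x => ?_⟩
  rw [hAx x]
  refine ext2 ?_ ?_
  · simp only [PiLp.add_apply, PiLp.smul_apply, smul_eq_mul, ← hc, ← hp, J_zero, hp']
    ring
  · simp only [PiLp.add_apply, PiLp.smul_apply, smul_eq_mul, ← hs, ← hq, J_one, hq']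
    ring

theorem t2 : S_NID := by
  intro u δ hu hδ
  refine ⟨1 + (2 + δ) / δ, by positivity, fun A η hA x => ?_⟩
  have hu2 : u 0 ^ 2 + u 1 ^ 2 = 1 := by rw [← nsq, hu, one_pow]
  have h1 : ‖A u - u‖ ≤ η := by
    have h := hA u ⟨1, zero_le_one, by rw [one_smul, sub_self, norm_zero]; linarith⟩
    rwa [hu, mul_one] at h
  have hη : 0 ≤ η := (norm_nonneg _).trans h1
  have h2 : ‖A (u + δ • J u) - (u + δ • J u)‖ ≤ η * (1 + δ) := by
    refine (hA _ ⟨1, zero_le_one, ?_⟩).trans ?_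
    · rw [one_smul, add_sub_cancel_left, norm_smul, J_norm, hu, Real.norm_of_nonneg hδ.le]
    · refine mul_le_mul_of_nonneg_left ?_ hη
      refine (norm_add_le _ _).trans ?_
      rw [norm_smul, J_norm, hu, Real.norm_of_nonneg hδ.le, mul_one]
  have h3 : ‖A (J u) - J u‖ ≤ η * ((2 + δ) / δ) := by
    have e : δ • (A (J u) - J u) = (A (u + δ • J u) - (u + δ • J u)) - (A u - u) := by
      rw [map_add, map_smul]
      module
    have h4 : δ * ‖A (J u) - J u‖ ≤ η * (1 + δ) + η := by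
      have h5 : ‖δ • (A (J u) - J u)‖ = δ * ‖A (J u) - J u‖ := by
        rw [norm_smul, Real.norm_of_nonneg hδ.le]
      rw [← h5, e]
      exact (norm_sub_le _ _).trans (add_le_add h2 h1)
    rw [mul_div_assoc', le_div_iff₀ hδ]
    linarith
  obtain ⟨a, ha⟩ : ∃ a, a = x 0 * u 0 + x 1 * u 1 := ⟨_, rfl⟩
  obtain ⟨b, hb⟩ : ∃ b, b = x 1 * u 0 - x 0 * u 1 := ⟨_, rfl⟩
  have hx : x = a • u + b • J u := by
    refine ext2 ?_ ?_
    · simp only [PiLp.add_apply, PiLp.smul_apply, smul_eq_mul, J_zero, ha, hb]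
      linear_combination (-x 0) * hu2
    · simp only [PiLp.add_apply, PiLp.smul_apply, smul_eq_mul, J_one, ha, hb]
      linear_combination (-x 1) * hu2
  have hab : a ^ 2 + b ^ 2 = ‖x‖ ^ 2 := by
    rw [nsq, ha, hb]
    linear_combination (x 0 ^ 2 + x 1 ^ 2) * hu2
  have ha' : |a| ≤ ‖x‖ := abs_le_of_sq_le_sq (by nlinarith [sq_nonneg b]) (norm_nonneg _)
  have hb' : |b| ≤ ‖x‖ := abs_le_of_sq_le_sq (by nlinarith [sq_nonneg a]) (norm_nonneg _)
  have e : A x - x = a • (A u - u) + b • (A (J u) - J u) := by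
    conv_lhs => rw [hx]
    rw [map_add, map_smul, map_smul]
    module
  rw [e]
  refine (norm_add_le _ _).trans ?_
  rw [norm_smul, norm_smul, Real.norm_eq_abs, Real.norm_eq_abs]
  have g1 : |a| * ‖A u - u‖ ≤ ‖x‖ * η := mul_le_mul ha' h1 (norm_nonneg _) (norm_nonneg _)
  have g2 : |b| * ‖A (J u) - J u‖ ≤ ‖x‖ * (η * ((2 + δ) / δ)) :=
    mul_le_mul hb' h3 (norm_nonneg _) (norm_nonneg _)
  linarith

end Pool.Agent.Y51.HB
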